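import Pool.Agent.Work.MP_6dc561_mf.Key

/-!
# Closedness, continuity, compactness, minimal fields
-/

set_option autoImplicit false

open NumberField IsDedekindDomain Polynomial Filter Topology Module

namespace Pool.MF

variable {F : Type} [Field F] [NumberField F]

/-- `K / F` is finite and the averages `A_x(K)` converge along the filter `l`. -/
def Converges (f : (𝓞 F)[X]) (G : HeightOneSpectrum (𝓞 F) → ℝ → ℝ → ℝ) (l : Filter ℝ)
    (K : IntermediateField F (AlgebraicClosure F)) : Prop :=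
  FiniteDimensional F K ∧ ∃ y, Tendsto (avg F f G K) l (𝓝 y)

/-- The limit of the averages `A_x(K)` along the filter `l` (if they converge). -/
noncomputable def limitValue (f : (𝓞 F)[X]) (G : HeightOneSpectrum (𝓞 F) → ℝ → ℝ → ℝ) (l : Filter ℝ)
    (K : IntermediateField F (AlgebraicClosure F)) : ℝ :=
  limUnder l (avg F f G K)

theorem Converges.tends {f : (𝓞 F)[X]} {G : HeightOneSpectrum (𝓞 F) → ℝ → ℝ → ℝ} {l : Filter ℝ}
    {K : IntermediateField F (AlgebraicClosure F)} (h : Converges f G l K) :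
    Tendsto (avg F f G K) l (𝓝 (limitValue f G l K)) := tendsto_nhds_limUnder h.2

theorem minimal_finite (f : (𝓞 F)[X]) (hdeg : f.natDegree = 5 ∨ f.natDegree = 6)
    (hsep : (f.map (algebraMap (𝓞 F) F)).Separable) (n : ℕ) (T : Type)
    (G : T → HeightOneSpectrum (𝓞 F) → ℝ → ℝ → ℝ) (M : T → ℝ) (hG : ∀ t v a b, |G t v a b| ≤ M t)
    (M₀ : IntermediateField F (AlgebraicClosure F)) (hM₀ : FiniteDimensional F M₀)
    (L : T → IntermediateField F (AlgebraicClosure F) → ℝ) (l : Filter ℝ) [l.NeBot] (hl : l ≤ atTop) :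
    {K : IntermediateField F (AlgebraicClosure F) | Minimal (fun K : IntermediateField F (AlgebraicClosure F) =>
      FiniteDimensional F K ∧ finrank F K ≤ n ∧ ∀ t, Tendsto (avg F f (G t) K) l (𝓝 (L t (K ⊓ M₀)))) K}.Finite := by
  by_contra hinf
  have hsp : ∀ K, K ∈ {K : IntermediateField F (AlgebraicClosure F) | Minimal
      (fun K : IntermediateField F (AlgebraicClosure F) => FiniteDimensional F K ∧ finrank F K ≤ n ∧
        ∀ t, Tendsto (avg F f (G t) K) l (𝓝 (L t (K ⊓ M₀)))) K} →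
      (FiniteDimensional F K ∧ finrank F K ≤ n ∧ ∀ t, Tendsto (avg F f (G t) K) l (𝓝 (L t (K ⊓ M₀)))) ∧
      ∀ E : IntermediateField F (AlgebraicClosure F), (FiniteDimensional F E ∧ finrank F E ≤ n ∧
        ∀ t, Tendsto (avg F f (G t) E) l (𝓝 (L t (E ⊓ M₀)))) → E ≤ K → K ≤ E := by
    intro K hK
    exact ⟨hK.1, fun E hE h => hK.2 hE h⟩
  obtain ⟨E, K, hE, hEfin, hinj, hmem, hmeet, hdis⟩ := sunflower _ hinf n
    (fun K hK => ⟨(hsp K hK).1.1, (hsp K hK).1.2.1⟩) M₀ hM₀
  have hm := fun i => hsp _ (hmem i)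
  have hP : FiniteDimensional F E ∧ finrank F E ≤ n ∧
      ∀ t, Tendsto (avg F f (G t) E) l (𝓝 (L t (E ⊓ M₀))) := by
    refine ⟨hEfin, (fin_of_le (hE 0).le (hm 0).1.1).2.trans (hm 0).1.2.1, fun t => ?_⟩
    obtain ⟨⟨L₀, hL₀⟩, hc⟩ := key f hdeg hsep (G t) (M t) (hG t) E hEfin K hE
      (fun i => (hm i).1.1) n (fun i => (hm i).1.2.1) hdis l hl (fun _ => L t (E ⊓ M₀))
      (fun i => by
        have h := (hm i).1.2.2 t
        rw [hmeet i] at h
        exact h)
    have h1 := tendsto_nhds_unique (hc L₀ hL₀) tendsto_const_nhds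
    rw [← h1]
    exact hL₀
  exact (hE 0).not_ge ((hm 0).2 E hP (hE 0).le)

/-- limits along ultrafilters exist -/
theorem converges_ultra (f : (𝓞 F)[X]) (G : HeightOneSpectrum (𝓞 F) → ℝ → ℝ → ℝ) (M : ℝ)
    (hG : ∀ v a b, |G v a b| ≤ M) (l : Ultrafilter ℝ) (K : IntermediateField F (AlgebraicClosure F))
    (hK : FiniteDimensional F K) : Converges f G l K := by
  refine ⟨hK, ?_⟩
  have hG' : ∀ v a b, |G v a b| ≤ max M 0 := fun v a b => (hG v a b).trans (le_max_left _ _)
  have h1 : ((l.map (avg F f G K) : Ultrafilter ℝ) : Filter ℝ) ≤ 𝓟 (Set.Icc (-(max M 0)) (max M 0)) := by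
    rw [le_principal_iff, Ultrafilter.coe_map, mem_map]
    exact Filter.univ_mem' fun x => abs_le.1 (avg_le f G (max M 0) (le_max_right _ _) hG' K x)
  obtain ⟨y, -, hy⟩ := isCompact_Icc.ultrafilter_le_nhds _ h1
  exact ⟨y, hy⟩

section

variable (f : (𝓞 F)[X]) (hdeg : f.natDegree = 5 ∨ f.natDegree = 6)
    (hsep : (f.map (algebraMap (𝓞 F) F)).Separable) (G : HeightOneSpectrum (𝓞 F) → ℝ → ℝ → ℝ) (M : ℝ)
    (hG : ∀ v a b, |G v a b| ≤ M) (l : Filter ℝ) [l.NeBot] (hl : l ≤ atTop)

include hdeg hsep hG hl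

/-- closedness -/
theorem closedness (n : ℕ) (E : IntermediateField F (AlgebraicClosure F)) (hEfin : FiniteDimensional F E)
    (h : ∀ N : IntermediateField F (AlgebraicClosure F), FiniteDimensional F N → E ≤ N →
      ∃ K : IntermediateField F (AlgebraicClosure F), Converges f G l K ∧ finrank F K ≤ n ∧ K ⊓ N = E) :
    Converges f G l E := by
  by_contra hcon
  obtain ⟨K, hE, hinj, hmem, hdis⟩ := seq_disj {K : IntermediateField F (AlgebraicClosure F) |
      Converges f G l K ∧ finrank F K ≤ n} E hEfin (fun K hK => hK.1.1) (by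
    intro N hN hEN
    obtain ⟨K, h1, h2, h3⟩ := h N hN hEN
    refine ⟨K, ⟨h1, h2⟩, lt_of_le_of_ne (h3 ▸ inf_le_left) ?_, h3⟩
    rintro rfl
    exact hcon h1)
  exact hcon ⟨hEfin, (key f hdeg hsep G M hG E hEfin K hE (fun i => (hmem i).1.1) n (fun i => (hmem i).2)
    hdis l hl _ (fun i => (hmem i).1.tends)).1⟩

/-- continuity -/
theorem continuity (E : IntermediateField F (AlgebraicClosure F)) (hE' : Converges f G l E)
    (ε : ℝ) (hε : 0 < ε) :
    ∃ N : IntermediateField F (AlgebraicClosure F), FiniteDimensional F N ∧ E ≤ N ∧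
      ∀ K : IntermediateField F (AlgebraicClosure F), Converges f G l K → K ⊓ N = E →
        (limitValue f G l K - limitValue f G l E) ^ 2 ≤ ε * ((finrank F K : ℝ) - finrank F E) := by
  by_contra hcon
  push Not at hcon
  obtain ⟨K, hE, hinj, hmem, hdis⟩ := seq_disj {K : IntermediateField F (AlgebraicClosure F) |
      Converges f G l K ∧
        ε * ((finrank F K : ℝ) - finrank F E) < (limitValue f G l K - limitValue f G l E) ^ 2} E hE'.1
      (fun K hK => hK.1.1) (by
    intro N hN hEN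
    obtain ⟨K, h1, h3, h4⟩ := hcon N hN hEN
    refine ⟨K, ⟨h1, h4⟩, lt_of_le_of_ne (h3 ▸ inf_le_left) ?_, h3⟩
    rintro rfl
    rw [sub_self, sub_self] at h4
    simp at h4)
  obtain ⟨r, hr, h1⟩ := key2 f hdeg hsep G M hG E hE'.1 K hE (fun i => (hmem i).1.1) hdis l hl
    _ (fun i => (hmem i).1.tends) _ hE'.tends
  have h2 : ε ≤ 0 := by
    refine ge_of_tendsto' h1 fun i => ?_
    obtain ⟨h3, h4⟩ := hr i
    rw [le_div_iff₀ (by linarith)]
    have h5 := (hmem i).2
    have h6 : ε * r i ≤ ε * ((finrank F (K i) : ℝ) - finrank F E) := mul_le_mul_of_nonneg_left h4 hε.le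
    linarith
  linarith

/-- accumulation points -/
theorem acc (n : ℕ) (y : ℝ) (hy : ∀ ε > 0, ∃ K : IntermediateField F (AlgebraicClosure F),
      (Converges f G l K ∧ finrank F K ≤ n) ∧ limitValue f G l K ≠ y ∧ |limitValue f G l K - y| < ε) :
    ∃ E : IntermediateField F (AlgebraicClosure F),
      Converges f G l E ∧ 2 * finrank F E ≤ n ∧ limitValue f G l E = y := by
  have hk : ∀ k : ℕ, ∃ K : IntermediateField F (AlgebraicClosure F),
      (Converges f G l K ∧ finrank F K ≤ n) ∧ limitValue f G l K ≠ y ∧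
        |limitValue f G l K - y| < 1 / ((k : ℝ) + 1) :=
    fun k => hy _ (by positivity)
  choose K₁ h1 h2 h3 using hk
  have hinf : (Set.range K₁).Infinite := by
    intro hfin
    obtain ⟨K, ⟨k, hk⟩, hmin⟩ := Set.exists_min_image (Set.range K₁) (fun K => |limitValue f G l K - y|) hfin
      ⟨K₁ 0, 0, rfl⟩
    have hpos : 0 < |limitValue f G l K - y| := by
      rw [abs_pos, ← hk]
      exact sub_ne_zero.2 (h2 k)
    obtain ⟨m, hm⟩ := exists_nat_one_div_lt hpos
    have h4 := hmin (K₁ m) ⟨m, rfl⟩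
    have h5 := h3 m
    linarith
  obtain ⟨E, K, hE, hEfin, hinj, hmem, -, hdis⟩ := sunflower (Set.range K₁) hinf n
    (by rintro _ ⟨k, rfl⟩; exact ⟨(h1 k).1.1, (h1 k).2⟩) ⊥ inferInstance
  have hmem' : ∀ i, Converges f G l (K i) ∧ finrank F (K i) ≤ n := by
    intro i
    obtain ⟨k, hk⟩ := hmem i
    rw [← hk]
    exact h1 k
  obtain ⟨hex, hlim⟩ := key f hdeg hsep G M hG E hEfin K hE (fun i => (hmem' i).1.1) n
    (fun i => (hmem' i).2) hdis l hl _ (fun i => (hmem' i).1.tends)
  have hEc : Converges f G l E := ⟨hEfin, hex⟩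
  refine ⟨E, hEc, (finrank_step (hE 0) (hmem' 0).1.1).2.2.trans (hmem' 0).2, ?_⟩
  have hlim' : Tendsto (fun i => limitValue f G l (K i)) atTop (𝓝 y) := by
    choose κ hκ using hmem
    have hκinj : Function.Injective κ := by
      intro i j hij
      apply hinj
      rw [← hκ i, ← hκ j, hij]
    have h4 : Tendsto κ atTop atTop := by
      rw [← Nat.cofinite_eq_atTop]
      exact hκinj.tendsto_cofinite
    have h5 : Tendsto (fun k : ℕ => 1 / ((k : ℝ) + 1)) atTop (𝓝 0) := tendsto_one_div_add_atTop_nhds_zero_nat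
    rw [tendsto_iff_norm_sub_tendsto_zero]
    refine squeeze_zero (fun i => norm_nonneg _) (fun i => ?_) (h5.comp h4)
    change |limitValue f G l (K i) - y| ≤ _
    rw [← hκ i]
    exact (h3 (κ i)).le
  exact tendsto_nhds_unique (hlim _ hEc.tends) hlim'

/-- accumulation points, with repeated values -/
theorem acc2 (n : ℕ) (y : ℝ) (hy : ∀ ε > 0, {K : IntermediateField F (AlgebraicClosure F) |
      Converges f G l K ∧ finrank F K ≤ n ∧ |limitValue f G l K - y| < ε}.Infinite) :
    ∃ E : IntermediateField F (AlgebraicClosure F),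
      Converges f G l E ∧ 2 * finrank F E ≤ n ∧ limitValue f G l E = y := by
  by_cases hinf : {K : IntermediateField F (AlgebraicClosure F) |
      Converges f G l K ∧ finrank F K ≤ n ∧ limitValue f G l K = y}.Infinite
  · obtain ⟨E, K, hE, hEfin, hinj, hmem, -, hdis⟩ := sunflower _ hinf n
      (fun K hK => ⟨hK.1.1, hK.2.1⟩) ⊥ inferInstance
    obtain ⟨hex, h1⟩ := key f hdeg hsep G M hG E hEfin K hE (fun i => (hmem i).1.1) n
      (fun i => (hmem i).2.1) hdis l hl _ (fun i => (hmem i).1.tends)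
    have hEc : Converges f G l E := ⟨hEfin, hex⟩
    refine ⟨E, hEc, (finrank_step (hE 0) (hmem 0).1.1).2.2.trans (hmem 0).2.1, ?_⟩
    have h2 : (fun i => limitValue f G l (K i)) = fun _ => y := funext fun i => (hmem i).2.2
    have h3 := h1 _ hEc.tends
    rw [h2] at h3
    exact tendsto_nhds_unique h3 tendsto_const_nhds
  · rw [Set.not_infinite] at hinf
    apply acc f hdeg hsep G M hG l hl n y
    intro ε hε
    obtain ⟨K, hK, hK'⟩ := ((hy ε hε).diff hinf).nonempty
    exact ⟨K, ⟨hK.1, hK.2.1⟩, fun h => hK' ⟨hK.1, hK.2.1, h⟩, hK.2.2⟩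

/-- compactness -/
theorem compact (n : ℕ) :
    IsCompact (limitValue f G l '' {K : IntermediateField F (AlgebraicClosure F) |
      Converges f G l K ∧ finrank F K ≤ n}) := by
  apply Metric.isCompact_of_isClosed_isBounded
  · rw [← closure_subset_iff_isClosed]
    intro y hy
    by_contra hne
    rw [Metric.mem_closure_iff] at hy
    obtain ⟨E, h1, h2, h3⟩ := acc f hdeg hsep G M hG l hl n y (by
      intro ε hε
      obtain ⟨z, ⟨K, hK, rfl⟩, hd⟩ := hy ε hε
      refine ⟨K, hK, ?_, ?_⟩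
      · rintro rfl
        exact hne ⟨K, hK, rfl⟩
      · rw [abs_sub_comm]
        exact hd)
    exact hne ⟨E, ⟨h1, by omega⟩, h3⟩
  · rw [isBounded_iff_forall_norm_le]
    refine ⟨max M 0, ?_⟩
    rintro _ ⟨K, hK, rfl⟩
    have hG' : ∀ v a b, |G v a b| ≤ max M 0 := fun v a b => (hG v a b).trans (le_max_left _ _)
    exact le_of_tendsto' hK.1.tends.norm fun x => avg_le f G (max M 0) (le_max_right _ _) hG' K x

end

end Pool.MF
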