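import Pool.Agent.Work.MP_6dc561_mf.Tow

/-!
# Averages over the subfields of an algebraic closure: the limit along a sunflower
-/

set_option autoImplicit false

open NumberField IsDedekindDomain Polynomial Filter Topology Module
open scoped TensorProduct

namespace Pool.MF

open Classical in
/-- The average `A_x(K)` of `G (v, a_w/√q_w, b_w/q_w)` over the primes `w` of `K` of good reduction of
`y² = f(x)` with norm at most `x`, `v` the prime of `F` below `w`, for a finite extension `K` of `F` in the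
algebraic closure of `F` (and `0` for an infinite one). -/
noncomputable def avg (F : Type) [Field F] [NumberField F] (f : (𝓞 F)[X])
    (G : HeightOneSpectrum (𝓞 F) → ℝ → ℝ → ℝ) (K : IntermediateField F (AlgebraicClosure F)) (x : ℝ) : ℝ :=
  if h : FiniteDimensional F K then
    haveI : NumberField K := NumberField.of_module_finite F K
    Pool.DS.stAverage F K f G x
  else 0

variable {F : Type} [Field F] [NumberField F]

theorem avg_eq (f : (𝓞 F)[X]) (G : HeightOneSpectrum (𝓞 F) → ℝ → ℝ → ℝ)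
    (K : IntermediateField F (AlgebraicClosure F)) [h : FiniteDimensional F K] [NumberField K] :
    avg F f G K = Pool.DS.stAverage F K f G := by
  funext x
  unfold avg
  rw [dif_pos h]

theorem avg_le (f : (𝓞 F)[X]) (G : HeightOneSpectrum (𝓞 F) → ℝ → ℝ → ℝ) (M : ℝ) (hM : 0 ≤ M)
    (hG : ∀ v a b, |G v a b| ≤ M) (K : IntermediateField F (AlgebraicClosure F)) (x : ℝ) :
    |avg F f G K x| ≤ M := by
  by_cases h : FiniteDimensional F K
  · haveI : NumberField K := NumberField.of_module_finite F K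
    rw [avg_eq]
    exact abs_stAverage_le F K f G M hM hG x
  · unfold avg
    rw [dif_neg h, abs_zero]
    exact hM

theorem finrank_step {E K : IntermediateField F (AlgebraicClosure F)} (h : E < K) (hK : FiniteDimensional F K) :
    letI := algOf h.le
    1 < finrank E K ∧ finrank E K ≤ finrank F K ∧ 2 * finrank F E ≤ finrank F K := by
  letI := algOf h.le
  haveI := (fin_of_le h.le hK).1
  haveI : IsScalarTower F E K := IsScalarTower.of_algebraMap_eq fun x => rfl
  haveI : FiniteDimensional E K := Module.Finite.of_restrictScalars_finite F E K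
  have h1 : finrank F E * finrank E K = finrank F K := finrank_mul_finrank F E K
  have h2 : 0 < finrank F E := finrank_pos
  have h3 : 0 < finrank E K := finrank_pos
  have h4 : 1 < finrank E K := by
    by_contra hc
    have h5 : finrank E K = 1 := by omega
    rw [h5, mul_one] at h1
    exact h.ne (IntermediateField.eq_of_le_of_finrank_eq h.le h1)
  refine ⟨h4, ?_, ?_⟩ <;> rw [← h1]
  · exact Nat.le_mul_of_pos_left _ h2
  · rw [mul_comm]
    exact Nat.mul_le_mul_left _ h4

/-- **the Bessel inequality along a sunflower**, degrees not bounded -/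
theorem key2 (f : (𝓞 F)[X]) (hdeg : f.natDegree = 5 ∨ f.natDegree = 6)
    (hsep : (f.map (algebraMap (𝓞 F) F)).Separable)
    (G : HeightOneSpectrum (𝓞 F) → ℝ → ℝ → ℝ) (M : ℝ) (hG : ∀ v a b, |G v a b| ≤ M)
    (E : IntermediateField F (AlgebraicClosure F)) (hEfin : FiniteDimensional F E)
    (K : ℕ → IntermediateField F (AlgebraicClosure F)) (hE : ∀ i, E < K i)
    (hfin : ∀ i, FiniteDimensional F (K i)) (hdis : Disj E K hE) (l : Filter ℝ) [l.NeBot] (hl : l ≤ atTop)
    (L : ℕ → ℝ) (hL : ∀ i, Tendsto (avg F f G (K i)) l (𝓝 (L i))) (L₀ : ℝ)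
    (hL₀ : Tendsto (avg F f G E) l (𝓝 L₀)) :
    ∃ r : ℕ → ℝ, (∀ i, 1 ≤ r i ∧ r i ≤ (finrank F (K i) : ℝ) - finrank F E) ∧
      Tendsto (fun i => (L i - L₀) ^ 2 / r i) atTop (𝓝 0) := by
  haveI : NumberField E := NumberField.of_module_finite F E
  haveI : ∀ i, NumberField (K i) := fun i => by
    haveI := hfin i
    exact NumberField.of_module_finite F (K i)
  letI : ∀ i, Algebra E (K i) := fun i => algOf (hE i).le
  haveI : ∀ i, IsScalarTower F E (K i) := fun i => IsScalarTower.of_algebraMap_eq fun x => rfl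
  have e1 : ∀ i, avg F f G (K i) = DS.stAverage E (K i) (f.map (algebraMap (𝓞 F) (𝓞 E)))
      (fun v => G (DS.below F v)) := by
    intro i
    haveI := hfin i
    rw [avg_eq, stAverage_tower F E (K i)]
  have e2 : avg F f G E = DS.stAverage E E (f.map (algebraMap (𝓞 F) (𝓞 E)))
      (fun v => G (DS.below F v)) := by
    rw [avg_eq, stAverage_tower F E E]
  have hd : (f.map (algebraMap (𝓞 F) (𝓞 E))).natDegree = 5 ∨
      (f.map (algebraMap (𝓞 F) (𝓞 E))).natDegree = 6 := by
    rw [deg_map]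
    exact hdeg
  have hmain := DS.fin_all E (f.map (algebraMap (𝓞 F) (𝓞 E))) hd (sep_map F E f hsep)
    (fun v => G (DS.below F v)) M (fun v a b => hG _ a b) ℕ (fun i => K i)
    (fun i j hij => hdis i j hij) l inferInstance hl L (fun i => by
      rw [← e1 i]
      exact hL i)
  refine ⟨fun i => (Nat.card (PrimeSpectrum (K i ⊗[E] K i)) : ℝ) - 1, fun i => ?_,
    (hmain.1 L₀ (by rw [← e2]; exact hL₀)).1.tendsto_atTop_zero⟩
  obtain ⟨h1, _, _⟩ := finrank_step (hE i) (hfin i)
  obtain ⟨h3, h4⟩ := DS.stmt_RNK DS.stmt_RDC E (K i) h1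
  haveI := hfin i
  haveI : FiniteDimensional E (K i) := Module.Finite.of_restrictScalars_finite F E (K i)
  have h5 : finrank F E * finrank E (K i) = finrank F (K i) := finrank_mul_finrank F E (K i)
  have h6 : 0 < finrank F E := finrank_pos
  have h7 : (2 : ℝ) ≤ (Nat.card (PrimeSpectrum (K i ⊗[E] K i)) : ℝ) := by exact_mod_cast h3
  have h8 : (Nat.card (PrimeSpectrum (K i ⊗[E] K i)) : ℝ) ≤ finrank E (K i) := by exact_mod_cast h4
  have h9 : (finrank F (K i) : ℝ) = finrank F E * finrank E (K i) := by exact_mod_cast h5.symm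
  have h10 : (1 : ℝ) ≤ finrank F E := by exact_mod_cast h6
  have h11 : (1 : ℝ) ≤ finrank E (K i) := by exact_mod_cast h1.le
  constructor
  · linarith
  · rw [h9]
    nlinarith

/-- **the limit along a sunflower** -/
theorem key (f : (𝓞 F)[X]) (hdeg : f.natDegree = 5 ∨ f.natDegree = 6)
    (hsep : (f.map (algebraMap (𝓞 F) F)).Separable)
    (G : HeightOneSpectrum (𝓞 F) → ℝ → ℝ → ℝ) (M : ℝ) (hG : ∀ v a b, |G v a b| ≤ M)
    (E : IntermediateField F (AlgebraicClosure F)) (hEfin : FiniteDimensional F E)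
    (K : ℕ → IntermediateField F (AlgebraicClosure F)) (hE : ∀ i, E < K i)
    (hfin : ∀ i, FiniteDimensional F (K i)) (n : ℕ) (hn : ∀ i, finrank F (K i) ≤ n)
    (hdis : Disj E K hE) (l : Filter ℝ) [l.NeBot] (hl : l ≤ atTop) (L : ℕ → ℝ)
    (hL : ∀ i, Tendsto (avg F f G (K i)) l (𝓝 (L i))) :
    (∃ L₀, Tendsto (avg F f G E) l (𝓝 L₀)) ∧
      ∀ L₀, Tendsto (avg F f G E) l (𝓝 L₀) → Tendsto L atTop (𝓝 L₀) := by
  haveI : NumberField E := NumberField.of_module_finite F E
  haveI : ∀ i, NumberField (K i) := fun i => by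
    haveI := hfin i
    exact NumberField.of_module_finite F (K i)
  letI : ∀ i, Algebra E (K i) := fun i => algOf (hE i).le
  haveI : ∀ i, IsScalarTower F E (K i) := fun i => IsScalarTower.of_algebraMap_eq fun x => rfl
  have e1 : ∀ i, avg F f G (K i) = DS.stAverage E (K i) (f.map (algebraMap (𝓞 F) (𝓞 E)))
      (fun v => G (DS.below F v)) := by
    intro i
    haveI := hfin i
    rw [avg_eq, stAverage_tower F E (K i)]
  have e2 : avg F f G E = DS.stAverage E E (f.map (algebraMap (𝓞 F) (𝓞 E)))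
      (fun v => G (DS.below F v)) := by
    rw [avg_eq, stAverage_tower F E E]
  have hd : (f.map (algebraMap (𝓞 F) (𝓞 E))).natDegree = 5 ∨
      (f.map (algebraMap (𝓞 F) (𝓞 E))).natDegree = 6 := by
    rw [deg_map]
    exact hdeg
  have hmain := DS.fin_all E (f.map (algebraMap (𝓞 F) (𝓞 E))) hd (sep_map F E f hsep)
    (fun v => G (DS.below F v)) M (fun v a b => hG _ a b) ℕ (fun i => K i)
    (fun i j hij => hdis i j hij) l inferInstance hl L (fun i => by
      rw [← e1 i]
      exact hL i)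
  have hr : ∀ i, 2 ≤ Nat.card (PrimeSpectrum (K i ⊗[E] K i)) ∧
      Nat.card (PrimeSpectrum (K i ⊗[E] K i)) ≤ n := by
    intro i
    obtain ⟨h1, h2, _⟩ := finrank_step (hE i) (hfin i)
    obtain ⟨h3, h4⟩ := DS.stmt_RNK DS.stmt_RDC E (K i) h1
    exact ⟨h3, h4.trans (h2.trans (hn i))⟩
  have hn0 : (0 : ℝ) < n := by
    have := hr 0
    exact_mod_cast (by omega : 0 < n)
  have hr' : ∀ i, (1 : ℝ) ≤ (Nat.card (PrimeSpectrum (K i ⊗[E] K i)) : ℝ) - 1 ∧
      (Nat.card (PrimeSpectrum (K i ⊗[E] K i)) : ℝ) - 1 ≤ n := by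
    intro i
    obtain ⟨h1, h2⟩ := hr i
    have h3 : (2 : ℝ) ≤ (Nat.card (PrimeSpectrum (K i ⊗[E] K i)) : ℝ) := by exact_mod_cast h1
    have h4 : (Nat.card (PrimeSpectrum (K i ⊗[E] K i)) : ℝ) ≤ n := by exact_mod_cast h2
    constructor <;> linarith
  rw [e2]
  constructor
  · apply hmain.2
    intro hs
    have h1 := hs.tendsto_atTop_zero
    have h2 : ∀ i : ℕ, (1 : ℝ) / n ≤ 1 / ((Nat.card (PrimeSpectrum (K i ⊗[E] K i)) : ℝ) - 1) := by
      intro i
      obtain ⟨h3, h4⟩ := hr' i
      exact one_div_le_one_div_of_le (by linarith) h4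
    have h3 : (1 : ℝ) / n ≤ 0 := ge_of_tendsto' h1 h2
    have h4 : (0 : ℝ) < 1 / n := by positivity
    linarith
  · intro L₀ hL₀
    have h1 := (hmain.1 L₀ hL₀).1.tendsto_atTop_zero
    have h2 : Tendsto (fun i => (L i - L₀) ^ 2) atTop (𝓝 0) := by
      have h3 : Tendsto (fun i => (n : ℝ) * ((L i - L₀) ^ 2 /
          ((Nat.card (PrimeSpectrum (K i ⊗[E] K i)) : ℝ) - 1))) atTop (𝓝 0) := by
        simpa using h1.const_mul (n : ℝ)
      refine squeeze_zero (fun i => sq_nonneg _) (fun i => ?_) h3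
      obtain ⟨h4, h5⟩ := hr' i
      rw [mul_div_assoc', le_div_iff₀ (by linarith), mul_comm]
      exact mul_le_mul_of_nonneg_right h5 (sq_nonneg _)
    have h3 : Tendsto (fun i => |L i - L₀|) atTop (𝓝 0) := by
      have h4 := h2.sqrt
      simp only [Real.sqrt_sq_eq_abs, Real.sqrt_zero] at h4
      exact h4
    rw [tendsto_iff_norm_sub_tendsto_zero]
    exact h3

end Pool.MF
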