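import Mathlib

/-!
# Sunflowers of number fields

An infinite family of subfields of bounded degree over `F` contains an infinite subfamily whose members are pairwise
linearly disjoint over a common proper subfield `E`.
-/

set_option autoImplicit false

open IntermediateField Module Filter
open scoped TensorProduct

namespace Pool.MF

variable {F Ω : Type} [Field F] [Field Ω] [Algebra F Ω]

/-- a finite extension has finitely many subextensions -/
theorem finite_below [CharZero F] (M : IntermediateField F Ω) [FiniteDimensional F M] :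
    {E : IntermediateField F Ω | E ≤ M}.Finite := by
  haveI : Finite (IntermediateField F M) :=
    Field.finite_intermediateField_of_exists_primitive_element F M (Field.exists_primitive_element F M)
  have h : {E : IntermediateField F Ω | E ≤ M} ⊆
      Set.range (fun E : IntermediateField F M => IntermediateField.lift E) := by
    intro E hE
    exact ⟨IntermediateField.restrict hE, IntermediateField.lift_restrict hE⟩
  exact (Set.finite_range _).subset h

theorem fin_of_le {E K : IntermediateField F Ω} (h : E ≤ K) (hK : FiniteDimensional F K) :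
    FiniteDimensional F E ∧ finrank F E ≤ finrank F K := by
  have h4 : Function.Injective (inclusion h).toLinearMap := inclusion_injective h
  exact ⟨FiniteDimensional.of_injective _ h4, LinearMap.finrank_le_finrank_of_injective h4⟩

theorem exists_core (𝒦 : Set (IntermediateField F Ω)) (hinf : 𝒦.Infinite) (n : ℕ)
    (hn : ∀ K ∈ 𝒦, FiniteDimensional F K ∧ finrank F K ≤ n) :
    ∃ E : IntermediateField F Ω, {K | K ∈ 𝒦 ∧ E ≤ K}.Infinite ∧
      ∀ E', E < E' → {K | K ∈ 𝒦 ∧ E' ≤ K}.Finite := by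
  classical
  let P : Set (IntermediateField F Ω) := {E | {K | K ∈ 𝒦 ∧ E ≤ K}.Infinite}
  have hP : ∀ E ∈ P, FiniteDimensional F E ∧ finrank F E ≤ n := by
    intro E hE
    obtain ⟨K, hK, hEK⟩ := Set.Infinite.nonempty hE
    obtain ⟨h1, h2⟩ := hn K hK
    obtain ⟨h3, h4⟩ := fin_of_le hEK h1
    exact ⟨h3, h4.trans h2⟩
  have hne : ⊥ ∈ P := by
    change Set.Infinite {K | K ∈ 𝒦 ∧ ⊥ ≤ K}
    have : {K | K ∈ 𝒦 ∧ ⊥ ≤ K} = 𝒦 := by
      ext K
      simp
    rw [this]
    exact hinf
  have hS : ∃ E ∈ P, ∀ E' ∈ P, finrank F E' ≤ finrank F E := by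
    let S : Set ℕ := (fun E : IntermediateField F Ω => finrank F E) '' P
    have hS1 : S.Nonempty := ⟨_, ⊥, hne, rfl⟩
    have hS2 : BddAbove S := ⟨n, by rintro _ ⟨E, hE, rfl⟩; exact (hP E hE).2⟩
    obtain ⟨E, hE, h⟩ := Nat.sSup_mem hS1 hS2
    refine ⟨E, hE, fun E' hE' => ?_⟩
    have h1 : finrank F E = sSup S := h
    rw [h1]
    exact le_csSup hS2 ⟨E', hE', rfl⟩
  obtain ⟨E, hE, hmax⟩ := hS
  refine ⟨E, hE, fun E' hlt => ?_⟩
  by_contra h
  have hE' : E' ∈ P := h
  haveI := (hP E' hE').1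
  exact hlt.ne (eq_of_le_of_finrank_le hlt.le (hmax E' hE'))

theorem meet_finite [CharZero F] {𝒦 : Set (IntermediateField F Ω)} {E : IntermediateField F Ω}
    (hE : ∀ E', E < E' → {K | K ∈ 𝒦 ∧ E' ≤ K}.Finite)
    (M : IntermediateField F Ω) [FiniteDimensional F M] (hEM : E ≤ M) :
    {K | (K ∈ 𝒦 ∧ E ≤ K) ∧ K ⊓ M ≠ E}.Finite := by
  have h : {K | (K ∈ 𝒦 ∧ E ≤ K) ∧ K ⊓ M ≠ E} ⊆
      ⋃ E' ∈ {E' | E' ≤ M ∧ E < E'}, {K | K ∈ 𝒦 ∧ E' ≤ K} := by
    rintro K ⟨⟨hK, hEK⟩, hne⟩
    exact Set.mem_biUnion (x := K ⊓ M)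
      ⟨inf_le_right, lt_of_le_of_ne (le_inf hEK hEM) (Ne.symm hne)⟩ ⟨hK, inf_le_left⟩
  exact Set.Finite.subset (Set.Finite.biUnion ((finite_below M).subset fun E' h => h.1)
    fun E' h => hE E' h.2) h

theorem disj [CharZero F] {E K N : IntermediateField F Ω} (hK : E ≤ K) (hN : E ≤ N)
    [FiniteDimensional F K] [FiniteDimensional F N] [IsGalois F N] (h : K ⊓ N = E) :
    (extendScalars hN).LinearDisjoint (extendScalars hK) := by
  haveI a1 : FiniteDimensional F (extendScalars hN) := ‹FiniteDimensional F N›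
  haveI a2 : FiniteDimensional F (extendScalars hK) := ‹FiniteDimensional F K›
  haveI a3 : IsGalois F (extendScalars hN) := ‹IsGalois F N›
  haveI a4 : FiniteDimensional E (extendScalars hN) := Module.Finite.of_restrictScalars_finite F E _
  haveI a5 : FiniteDimensional E (extendScalars hK) := Module.Finite.of_restrictScalars_finite F E _
  haveI a6 : IsGalois E (extendScalars hN) := IsGalois.tower_top_of_isGalois F E (extendScalars hN)
  apply LinearDisjoint.of_inf_eq_bot
  rw [eq_bot_iff]
  intro x hx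
  have hx1 : x ∈ K ⊓ N := ⟨hx.2, hx.1⟩
  rw [h] at hx1
  exact mem_bot.2 ⟨⟨x, hx1⟩, rfl⟩

/-- `K` as an algebra over the subfield `E` -/
abbrev algOf {E K : IntermediateField F Ω} (h : E ≤ K) : Algebra E K := (inclusion h).toRingHom.toAlgebra

theorem isField_of_disj {E K K' : IntermediateField F Ω} (hK : E ≤ K) (hK' : E ≤ K')
    [FiniteDimensional F K] (h : (extendScalars hK).LinearDisjoint (extendScalars hK')) :
    letI := algOf hK
    letI := algOf hK'
    IsField (K ⊗[E] K') := by
  letI := algOf hK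
  letI := algOf hK'
  let fa : K →ₐ[E] Ω := { K.val.toRingHom with commutes' := fun r => rfl }
  let fb : K' →ₐ[E] Ω := { K'.val.toRingHom with commutes' := fun r => rfl }
  have ha : fa.fieldRange = extendScalars hK := by
    ext x
    constructor
    · rintro ⟨y, rfl⟩
      exact y.2
    · intro hx
      exact ⟨⟨x, hx⟩, rfl⟩
  have hb : fb.fieldRange = extendScalars hK' := by
    ext x
    constructor
    · rintro ⟨y, rfl⟩
      exact y.2
    · intro hx
      exact ⟨⟨x, hx⟩, rfl⟩
  haveI : IsScalarTower F E K := IsScalarTower.of_algebraMap_eq fun x => rfl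
  haveI : FiniteDimensional E K := Module.Finite.of_restrictScalars_finite F E K
  refine LinearDisjoint.isField_of_isAlgebraic' (fa := fa) (fb := fb) ?_ (Or.inl inferInstance)
  rw [ha, hb]
  exact h

/-- the family is pairwise linearly disjoint over `E` -/
def Disj (E : IntermediateField F Ω) (K : ℕ → IntermediateField F Ω) (hE : ∀ i, E < K i) : Prop :=
  ∀ i j, i ≠ j →
    letI := algOf (hE i).le
    letI := algOf (hE j).le
    IsField (K i ⊗[E] K j)

/-- choosing a sequence -/
theorem seq_disj [CharZero F] [IsAlgClosure F Ω] (𝒦 : Set (IntermediateField F Ω))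
    (E : IntermediateField F Ω) (hEfin : FiniteDimensional F E) (hfin : ∀ K ∈ 𝒦, FiniteDimensional F K)
    (h : ∀ N : IntermediateField F Ω, FiniteDimensional F N → E ≤ N → ∃ K ∈ 𝒦, E < K ∧ K ⊓ N = E) :
    ∃ (K : ℕ → IntermediateField F Ω) (hE : ∀ i, E < K i), Function.Injective K ∧ (∀ i, K i ∈ 𝒦) ∧
      Disj E K hE := by
  classical
  haveI : Normal F Ω := IsAlgClosure.normal F Ω
  let P : IntermediateField F Ω → Prop := fun K => K ∈ 𝒦 ∧ E < K
  let r : IntermediateField F Ω → IntermediateField F Ω → Prop := fun K K' => K ≠ K' ∧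
    ∀ (h : E ≤ K) (h' : E ≤ K'), (extendScalars h).LinearDisjoint (extendScalars h')
  have hex : ∀ s : Finset (IntermediateField F Ω), (∀ x ∈ s, P x) → ∃ y, P y ∧ ∀ x ∈ s, r x y := by
    intro s hs
    let M₁ : IntermediateField F Ω := ⨆ x : s, (x : IntermediateField F Ω)
    haveI : ∀ x : s, FiniteDimensional F (x : IntermediateField F Ω) := fun x => hfin _ (hs x.1 x.2).1
    haveI : FiniteDimensional F M₁ := finiteDimensional_iSup_of_finite
    let M₂ : IntermediateField F Ω := E ⊔ M₁
    haveI : FiniteDimensional F M₂ := finiteDimensional_sup E M₁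
    let N : IntermediateField F Ω := normalClosure F M₂ Ω
    haveI : FiniteDimensional F N := inferInstance
    haveI : Normal F N := inferInstance
    haveI : IsGalois F N := IsGalois.mk
    have hM₂N : M₂ ≤ N := le_normalClosure M₂
    have hEN : E ≤ N := le_sup_left.trans hM₂N
    obtain ⟨y, hy, hlt, hm⟩ := h N inferInstance hEN
    refine ⟨y, ⟨hy, hlt⟩, fun x hx => ?_⟩
    have hxN : x ≤ N := ((le_iSup (fun x : s => (x : IntermediateField F Ω)) ⟨x, hx⟩).trans le_sup_right).trans hM₂N
    refine ⟨?_, fun h h' => ?_⟩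
    · rintro rfl
      rw [inf_eq_left.2 hxN] at hm
      exact hlt.ne hm.symm
    · haveI := hfin y hy
      have h1 := disj h' hEN hm
      exact h1.of_le_left (A' := extendScalars h) hxN
  obtain ⟨K, hK, hr⟩ := exists_seq_of_forall_finset_exists P r hex
  refine ⟨K, fun i => (hK i).2, ?_, fun i => (hK i).1, ?_⟩
  · intro i j hij
    by_contra hne
    rcases lt_or_gt_of_ne hne with h | h
    · exact (hr i j h).1 hij
    · exact (hr j i h).1 hij.symm
  · intro i j hij
    haveI := hfin _ (hK i).1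
    apply isField_of_disj (hK i).2.le (hK j).2.le
    rcases lt_or_gt_of_ne hij with h | h
    · exact (hr i j h).2 _ _
    · exact ((hr j i h).2 _ _).symm

/-- **sunflower** -/
theorem sunflower [CharZero F] [IsAlgClosure F Ω] (𝒦 : Set (IntermediateField F Ω)) (hinf : 𝒦.Infinite)
    (n : ℕ) (hn : ∀ K ∈ 𝒦, FiniteDimensional F K ∧ finrank F K ≤ n)
    (M₀ : IntermediateField F Ω) (hM₀ : FiniteDimensional F M₀) :
    ∃ (E : IntermediateField F Ω) (K : ℕ → IntermediateField F Ω) (hE : ∀ i, E < K i),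
      FiniteDimensional F E ∧ Function.Injective K ∧ (∀ i, K i ∈ 𝒦) ∧ (∀ i, K i ⊓ M₀ = E ⊓ M₀) ∧
      Disj E K hE := by
  classical
  obtain ⟨E, hE1, hE2⟩ := exists_core 𝒦 hinf n hn
  obtain ⟨K₀, hK₀, hEK₀⟩ := hE1.nonempty
  haveI hEfin : FiniteDimensional F E := (fin_of_le hEK₀ (hn K₀ hK₀).1).1
  obtain ⟨K, hK, hinj, hmem, hdis⟩ := seq_disj {K | K ∈ 𝒦 ∧ K ⊓ M₀ = E ⊓ M₀} E hEfin
    (fun K hK => (hn K hK.1).1) (by
      intro N hN hEN
      haveI : FiniteDimensional F (N ⊔ M₀ : IntermediateField F Ω) := finiteDimensional_sup N M₀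
      have f1 := meet_finite hE2 (N ⊔ M₀) (hEN.trans le_sup_left)
      obtain ⟨y, hy, hy'⟩ := (hE1.diff (f1.union (Set.finite_singleton E))).nonempty
      simp only [Set.mem_union, Set.mem_setOf_eq, not_or, not_and, not_not,
        Set.mem_singleton_iff] at hy'
      have g1 := hy'.1 hy
      refine ⟨y, ⟨hy.1, ?_⟩, lt_of_le_of_ne hy.2 (Ne.symm hy'.2), ?_⟩
      · apply le_antisymm
        · refine le_inf ?_ inf_le_right
          calc y ⊓ M₀ ≤ y ⊓ (N ⊔ M₀) := inf_le_inf_left _ le_sup_right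
            _ = E := g1
        · exact inf_le_inf_right _ hy.2
      · apply le_antisymm
        · calc y ⊓ N ≤ y ⊓ (N ⊔ M₀) := inf_le_inf_left _ le_sup_left
            _ = E := g1
        · exact le_inf hy.2 hEN)
  exact ⟨E, K, hK, hEfin, hinj, fun i => (hmem i).1, fun i => (hmem i).2, hdis⟩

end Pool.MF
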