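import Pool.Agent.Work.MP_6dc561_ds.All
import Pool.Agent.Work.MP_6dc561_mf.Sun

/-!
# Averages in towers
-/

set_option autoImplicit false

open NumberField IsDedekindDomain Polynomial Filter Topology

namespace Pool.MF

theorem below_below (F E K : Type) [Field F] [NumberField F] [Field E] [NumberField E] [Field K]
    [NumberField K] [Algebra F E] [Algebra E K] [Algebra F K] [IsScalarTower F E K]
    (w : HeightOneSpectrum (𝓞 K)) : DS.below F (DS.below E w) = DS.below F w := by
  apply HeightOneSpectrum.ext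
  change Ideal.comap (algebraMap (𝓞 F) (𝓞 E)) (Ideal.comap (algebraMap (𝓞 E) (𝓞 K)) w.asIdeal) =
    Ideal.comap (algebraMap (𝓞 F) (𝓞 K)) w.asIdeal
  rw [Ideal.comap_comap, ← IsScalarTower.algebraMap_eq]

theorem stAverage_tower (F E K : Type) [Field F] [NumberField F] [Field E] [NumberField E] [Field K]
    [NumberField K] [Algebra F E] [Algebra E K] [Algebra F K] [IsScalarTower F E K] (f : (𝓞 F)[X])
    (G : HeightOneSpectrum (𝓞 F) → ℝ → ℝ → ℝ) :
    DS.stAverage F K f G =
      DS.stAverage E K (f.map (algebraMap (𝓞 F) (𝓞 E))) (fun v => G (DS.below F v)) := by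
  funext x
  unfold DS.stAverage
  rw [Polynomial.map_map, ← IsScalarTower.algebraMap_eq]
  simp only [below_below F E K]

theorem deg_map (F E : Type) [Field F] [NumberField F] [Field E] [NumberField E] [Algebra F E]
    (f : (𝓞 F)[X]) : (f.map (algebraMap (𝓞 F) (𝓞 E))).natDegree = f.natDegree :=
  natDegree_map_eq_of_injective (FaithfulSMul.algebraMap_injective _ _) f

theorem sep_map (F E : Type) [Field F] [NumberField F] [Field E] [NumberField E] [Algebra F E]
    (f : (𝓞 F)[X]) (h : (f.map (algebraMap (𝓞 F) F)).Separable) :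
    ((f.map (algebraMap (𝓞 F) (𝓞 E))).map (algebraMap (𝓞 E) E)).Separable := by
  have h1 := h.map (f := algebraMap F E)
  rw [Polynomial.map_map] at h1 ⊢
  have e : (algebraMap (𝓞 E) E).comp (algebraMap (𝓞 F) (𝓞 E)) = (algebraMap F E).comp (algebraMap (𝓞 F) F) := by
    rw [← IsScalarTower.algebraMap_eq, ← IsScalarTower.algebraMap_eq]
  rw [e]
  exact h1

theorem abs_stAverage_le (F K : Type) [Field F] [NumberField F] [Field K] [NumberField K] [Algebra F K]
    (f : (𝓞 F)[X]) (G : HeightOneSpectrum (𝓞 F) → ℝ → ℝ → ℝ) (M : ℝ) (hM : 0 ≤ M)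
    (hG : ∀ v a b, |G v a b| ≤ M) (x : ℝ) : |DS.stAverage F K f G x| ≤ M := by
  unfold DS.stAverage
  by_cases hf : (Pool.Agent.Work.MP_6dc561_nt.goodUpTo (f.map (algebraMap (𝓞 F) (𝓞 K))) 1 x).Finite
  · rw [finsum_mem_eq_finite_toFinset_sum _ hf, abs_div, Nat.abs_cast]
    rw [Set.ncard_eq_toFinset_card _ hf]
    by_cases h0 : hf.toFinset.card = 0
    · rw [h0, Nat.cast_zero, div_zero]
      exact hM
    · rw [div_le_iff₀ (by exact_mod_cast Nat.pos_of_ne_zero h0)]
      calc |∑ i ∈ hf.toFinset, _| ≤ ∑ i ∈ hf.toFinset, M :=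
            (Finset.abs_sum_le_sum_abs _ _).trans (Finset.sum_le_sum fun i _ => hG _ _ _)
        _ = M * hf.toFinset.card := by rw [Finset.sum_const, nsmul_eq_mul, mul_comm]
  · rw [Set.Infinite.ncard hf, Nat.cast_zero, div_zero, abs_zero]
    exact hM

end Pool.MF
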